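import Pool.Agent.MWFE.StmtsA

/-!
# Row THK of squad MWFE
-/

set_option autoImplicit false

namespace Pool.Agent.MWFE.H58

open Pool.Agent.Helper14_MV Pool.Agent.Helper2_MV Pool.Agent.MVD
open Pool.Agent.MWE (Can XX fxy dxy dx dy up cp L4 pr Xs xl isx Fs nd nr)
open Pool.Agent.MWGR (cb)

variable {β : FIC} {n : ℕ}

/-- three letters to words -/
def g3 (v : ℕ) (w1 w2 : List ℕ) (i : ℕ) : List ℕ := if i = 0 then [v] else if i = 2 then w1 else w2

theorem flat_rep (a v : ℕ) (w1 w2 : List ℕ) :
    (List.replicate a 0).flatMap (g3 v w1 w2) = List.replicate a v := by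
  induction a with
  | zero => rfl
  | succ a ih =>
    rw [List.replicate_succ, List.flatMap_cons, ih, List.replicate_succ]
    rfl

/-- three occurrences, all thickened -/
def TT (n v : ℕ) (w1 w2 r : List ℕ) : List ℕ :=
  List.replicate (n + 1) v ++ (w1 ++ (List.replicate (n + 1) v ++ (w2 ++
    (List.replicate (n + 1) v ++ r))))

theorem ell3 (h : Hz n β) (p r w1 w2 : List ℕ) (v : ℕ) :
    RR β (p ++ v :: (w1 ++ v :: (w2 ++ v :: r))) (p ++ TT n v w1 w2 r) := by
  have h1 := RR.sub (g3 v w1 w2) h.ell
  have e1 : ([0, 2, 0, 3, 0] : List ℕ).flatMap (g3 v w1 w2) = v :: (w1 ++ v :: (w2 ++ [v])) := by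
    simp [g3]
  have e2 : (MWZ.X (n + 1) ++ 2 :: (MWZ.X (n + 1) ++ 3 :: MWZ.X (n + 1))).flatMap (g3 v w1 w2) =
      List.replicate (n + 1) v ++ (w1 ++ (List.replicate (n + 1) v ++ (w2 ++
        List.replicate (n + 1) v))) := by
    rw [List.flatMap_append, List.flatMap_cons, List.flatMap_append, List.flatMap_cons]
    show (List.replicate (n + 1) 0).flatMap _ ++ _ = _
    rw [flat_rep]
    rfl
  rw [e1, e2] at h1
  have h2 := (RR.refl (β := β) p).append (h1.append (RR.refl r))
  have e3 : p ++ (v :: (w1 ++ v :: (w2 ++ [v])) ++ r) =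
      p ++ v :: (w1 ++ v :: (w2 ++ v :: r)) := by simp
  have e4 : p ++ (List.replicate (n + 1) v ++ (w1 ++ (List.replicate (n + 1) v ++ (w2 ++
        List.replicate (n + 1) v))) ++ r) = p ++ TT n v w1 w2 r := by
    simp [TT]
  rw [e3, e4] at h2
  exact h2

theorem rep_cons (a v : ℕ) (r : List ℕ) :
    List.replicate a v ++ v :: r = List.replicate (a + 1) v ++ r := by
  rw [List.replicate_succ']
  simp

theorem rep_rep (a b v : ℕ) (r : List ℕ) :
    List.replicate a v ++ (List.replicate b v ++ r) = List.replicate (a + b) v ++ r := by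
  rw [← List.append_assoc, List.replicate_append_replicate]

theorem fst_uniq (v : ℕ) : ∀ (p p' q q' : List ℕ), v ∉ p → v ∉ p' →
    p ++ v :: q = p' ++ v :: q' → p = p' ∧ q = q' := by
  intro p
  induction p with
  | nil =>
    intro p' q q' _ h2 h
    cases p' with
    | nil => simp at h; exact ⟨rfl, h⟩
    | cons a p' =>
      simp at h
      exact absurd (by simp [h.1]) h2
  | cons a p ih =>
    intro p' q q' h1 h2 h
    cases p' with
    | nil =>
      simp at h
      exact absurd (by simp [h.1]) h1
    | cons a' p' =>
      simp only [List.cons_append, List.cons.injEq] at h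
      have := ih p' q q' (fun hh => h1 (List.mem_cons_of_mem _ hh))
        (fun hh => h2 (List.mem_cons_of_mem _ hh)) h.2
      exact ⟨by rw [h.1, this.1], this.2⟩

/-- two occurrences with multiple letters between them, the first one is thickened -/
theorem two1 (hp : PwlStmt) (h : Hz n β) (p g r : List ℕ) (v k : ℕ)
    (hg : ∀ a ∈ g, 2 ≤ (p ++ v :: (g ++ v :: r)).count a) :
    RR β (p ++ v :: (g ++ v :: r)) (p ++ (List.replicate (k * n + 1) v ++ (g ++ v :: r))) := by
  have h1 := h.it p [] g r v (fun a ha => hg a (by simpa using ha))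
  simp only [List.nil_append] at h1
  have e : v :: (List.replicate n v ++ (g ++ v :: r)) =
      List.replicate (n + 1) v ++ (g ++ v :: r) := by
    rw [List.replicate_succ]; rfl
  rw [e] at h1
  have hn := h.n2
  rcases Nat.eq_zero_or_pos k with rfl | hk
  · rw [Nat.zero_mul, Nat.zero_add]
    exact RR.refl _
  · refine β.trans h1 (hp n β h p _ v _ _ ?_ (by omega) ?_)
    · show (n + 1) % n = (k * n + 1) % n
      rw [Nat.add_comm n 1, Nat.add_mod_right, Nat.add_comm (k * n) 1, Nat.add_mul_mod_self_right]
    · have : 1 * n ≤ k * n := Nat.mul_le_mul_right n hk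
      omega

/-- the second one is thickened -/
theorem two2 (hp : PwlStmt) (h : Hz n β) (p g r : List ℕ) (v k : ℕ)
    (hg : ∀ a ∈ g, 2 ≤ (p ++ v :: (g ++ v :: r)).count a) :
    RR β (p ++ v :: (g ++ v :: r)) (p ++ v :: (g ++ (List.replicate (k * n + 1) v ++ r))) := by
  have h1 := h.it p g [] r v (fun a ha => hg a (by simpa using ha))
  simp only [List.nil_append] at h1
  rw [rep_cons] at h1
  have hn := h.n2
  rcases Nat.eq_zero_or_pos k with rfl | hk
  · rw [Nat.zero_mul, Nat.zero_add]
    exact RR.refl _
  · have h2 := hp n β h (p ++ v :: g) r v (n + 1) (k * n + 1) ?_ (by omega) ?_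
    · simp only [List.append_assoc, List.cons_append] at h1 h2 ⊢
      exact β.trans h1 h2
    · show (n + 1) % n = (k * n + 1) % n
      rw [Nat.add_comm n 1, Nat.add_mod_right, Nat.add_comm (k * n) 1, Nat.add_mul_mod_self_right]
    · have : 1 * n ≤ k * n := Nat.mul_le_mul_right n hk
      omega

theorem md (n k : ℕ) : k * n + (n + 1) ≡ n + 1 [MOD n] := by
  show (k * n + (n + 1)) % n = (n + 1) % n
  rw [Nat.add_comm (k * n), Nat.add_mul_mod_self_right]

/-- **THK** -/
theorem thk (hp : PwlStmt) : ThkStmt := by
  intro n β h p q v k hw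
  have hn := h.n2
  by_cases h3 : 3 ≤ (p ++ v :: q).count v
  · have hc : (p ++ v :: q).count v = p.count v + q.count v + 1 := by
      rw [List.count_append, List.count_cons_self]; ring
    rw [hc] at h3
    by_cases ha : p.count v = 0
    · -- the given one is the first
      have hb : 2 ≤ q.count v := by omega
      obtain ⟨q0, q1, rfl, h4⟩ := List.eq_append_cons_of_mem
        (List.count_pos_iff.1 (by omega : 0 < q.count v))
      have h5 : 0 < q1.count v := by
        rw [List.count_append, List.count_cons_self, List.count_eq_zero_of_not_mem h4] at hb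
        omega
      obtain ⟨q2, q3, rfl, h6⟩ := List.eq_append_cons_of_mem (List.count_pos_iff.1 h5)
      have h7 := ell3 h p q3 q0 q2 v
      have h8 := ell3 h (p ++ List.replicate (k * n) v) q3 q0 q2 v
      have h9 := hp n β h p (q0 ++ (List.replicate (n + 1) v ++ (q2 ++
        (List.replicate (n + 1) v ++ q3)))) v _ _ (md n k) (by omega) (by omega)
      rw [List.append_assoc, List.append_assoc, rep_cons] at h8
      unfold TT at h7 h8
      rw [rep_rep] at h8
      exact β.trans h7 (β.trans (β.symm h9) (β.symm h8))
    · obtain ⟨p0, p1, rfl, h4⟩ := List.eq_append_cons_of_mem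
        (List.count_pos_iff.1 (by omega : 0 < p.count v))
      by_cases hb : p1.count v = 0
      · -- the given one is the second
        have h5 : 0 < q.count v := by
          rw [List.count_append, List.count_cons_self, List.count_eq_zero_of_not_mem h4, hb] at h3
          omega
        obtain ⟨q0, q1, rfl, h6⟩ := List.eq_append_cons_of_mem (List.count_pos_iff.1 h5)
        have h7 := ell3 h p0 q1 p1 q0 v
        have h8 := ell3 h p0 q1 (p1 ++ List.replicate (k * n) v) q0 v
        have h9 := hp n β h (p0 ++ (List.replicate (n + 1) v ++ p1)) (q0 ++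
          (List.replicate (n + 1) v ++ q1)) v _ _ (md n k) (by omega) (by omega)
        rw [List.append_assoc, rep_cons] at h8
        unfold TT at h7 h8
        simp only [List.append_assoc] at h8 h9
        rw [rep_rep] at h8
        simp only [List.append_assoc, List.cons_append] at h7 h8 h9 ⊢
        exact β.trans h7 (β.trans (β.symm h9) (β.symm h8))
      · -- the given one is the third
        obtain ⟨p2, p3, rfl, h6⟩ := List.eq_append_cons_of_mem
          (List.count_pos_iff.1 (by omega : 0 < p1.count v))
        have h7 := ell3 h p0 q p2 p3 v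
        have h8 := ell3 h p0 q p2 (p3 ++ List.replicate (k * n) v) v
        have h9 := hp n β h (p0 ++ (List.replicate (n + 1) v ++ (p2 ++
          (List.replicate (n + 1) v ++ p3)))) q v _ _ (md n k) (by omega) (by omega)
        rw [List.append_assoc, rep_cons] at h8
        unfold TT at h7 h8
        simp only [List.append_assoc] at h8 h9
        rw [rep_rep] at h8
        simp only [List.append_assoc, List.cons_append] at h7 h8 h9 ⊢
        exact β.trans h7 (β.trans (β.symm h9) (β.symm h8))
  · obtain ⟨a, G, b, e, hm, hG⟩ := hw.resolve_left h3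
    obtain ⟨g0, r, rfl, h4⟩ := List.eq_append_cons_of_mem
      (List.count_pos_iff.1 (by omega : 0 < G.count v))
    have h5 : 0 < r.count v := by
      rw [List.count_append, List.count_cons_self, List.count_eq_zero_of_not_mem h4] at hG
      omega
    obtain ⟨g1, g2, rfl, h6⟩ := List.eq_append_cons_of_mem (List.count_pos_iff.1 h5)
    have hc : (p ++ v :: q).count v = p.count v + q.count v + 1 := by
      rw [List.count_append, List.count_cons_self]; ring
    have hc2 : (p ++ v :: q).count v = a.count v + (g0 ++ v :: (g1 ++ v :: g2)).count v +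
        b.count v := by
      rw [e, List.count_append, List.count_append]; ring
    have ha : v ∉ a := by
      intro hh
      have := List.count_pos_iff.2 hh
      omega
    have hm1 : ∀ d ∈ g1, 2 ≤ (p ++ v :: q).count d := fun d hd => hm d (by simp [hd])
    have e1 : p ++ v :: q = (a ++ g0) ++ v :: (g1 ++ v :: (g2 ++ b)) := by
      rw [e]; simp
    have h7 : v ∉ a ++ g0 := by
      intro hh
      rcases List.mem_append.1 hh with hh | hh
      · exact ha hh
      · exact h4 hh
    by_cases hpc : p.count v = 0
    · obtain ⟨e2, e3⟩ := fst_uniq v p (a ++ g0) q _ (List.count_eq_zero.1 hpc) h7 e1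
      rw [e3] at hm1 ⊢
      exact two1 hp h p g1 (g2 ++ b) v k hm1
    · obtain ⟨p0, p1, rfl, h8⟩ := List.eq_append_cons_of_mem
        (List.count_pos_iff.1 (by omega : 0 < p.count v))
      have e4 : p0 ++ v :: (p1 ++ v :: q) = (a ++ g0) ++ v :: (g1 ++ v :: (g2 ++ b)) := by
        rw [← e1]; simp
      obtain ⟨e2, e3⟩ := fst_uniq v p0 (a ++ g0) _ _ h8 h7 e4
      have h9 : v ∉ p1 := by
        intro hh
        have h11 := List.count_pos_iff.2 hh
        have h12 : (p0 ++ v :: p1).count v = p0.count v + (p1.count v + 1) := by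
          rw [List.count_append, List.count_cons_self]
        omega
      obtain ⟨e5, e6⟩ := fst_uniq v p1 g1 _ _ h9 h6 e3
      have h10 := two2 hp h p0 p1 q v k (by
        intro d hd
        rw [e5] at hd
        have := hm1 d hd
        simpa using this)
      simp only [List.append_assoc, List.cons_append] at h10 ⊢
      exact h10

end Pool.Agent.MWFE.H58
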